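import Pool.Agent.W_1b8d5d_p.HfE99
import Pool.Agent.W_1b8d5d_p.SlowP99
import Pool.Agent.W_1b8d5d_p.HfB80
import Pool.Agent.W_1b8d5d_p.IfaceP
import Pool.Agent.W_1b8d5d_h4p.FinPc

/-!
MP_1b8d5d_pr, Track P, step (hF2), proofs row 645: the numbers and the assembly. (helper6)
-/

set_option autoImplicit false

namespace Pool.Agent.W_1b8d5d_h6p

open MeasureTheory Set
open Pool.Agent.W_1b8d5d_h85 (V nm dir Edge Env grid wedges cost Bd sh)
open Pool.Agent.W_1b8d5d_p Pool.Agent.W_1b8d5d_h4p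
open Pool.Agent.W_1b8d5d_z (BM)
open Pool.Agent.W_7d29a1_f21 (splice splice_mem splice_not_mem mp_splice integral_splice)

noncomputable section

variable {F : Fm} {κ K A k1 K1 c0 C0 : ℝ} {d : Dr} {Ds : Set Dr}

/-! ### Two alternatives -/

theorem bm_abs {f : Env → ℝ} (h : BM f) : BM fun η => |f η| := by
  obtain ⟨hm, C, hC⟩ := h
  exact ⟨measurable_norm.comp hm, C, fun η => by rw [abs_abs]; exact hC η⟩

/-- If `g` is independent of `f`, the mean of `|f|` is at most the mean of `|f + g|` plus the modulus of the mean of `g`. -/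
theorem abs_le_add {f g : Env → ℝ} {S : Set Edge} (hf : BM f) (hg : BM g) (hfS : DependsOn f S) (hgS : DependsOn g Sᶜ) :
    ∫ η, |f η| ∂(law F) ≤ (∫ η, |f η + g η| ∂(law F)) + |∫ η, g η ∂(law F)| := by
  obtain ⟨φ, hφ⟩ : ∃ φ : Env → ℝ, φ = fun η => |f η + g η| := ⟨_, rfl⟩
  have hφb : BM φ := by
    rw [hφ]
    exact bm_abs (hf.add hg)
  have h1 := integral_splice (μ := F.nu) S (F := φ) hφb.int
  have h2 : Integrable (fun η : Env => ∫ η', φ (splice S η η') ∂(law F)) (law F) :=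
    (Pool.Agent.W_7d29a1_f21.integrable_splice (μ := F.nu) S hφb.int).integral_prod_left
  have key : ∀ η : Env, |f η| ≤ (∫ η', φ (splice S η η') ∂(law F)) + |∫ η, g η ∂(law F)| := by
    intro η
    have e1 : ∀ η', φ (splice S η η') = |f η + g η'| := by
      intro η'
      rw [hφ]
      have e1 : f (splice S η η') = f η := hfS fun p hp => splice_mem _ _ hp
      have e2 : g (splice S η η') = g η' := hgS fun p hp => splice_not_mem _ _ hp
      show |f (splice S η η') + g (splice S η η')| = |f η + g η'|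
      rw [e1, e2]
    have e2 : ∫ η', φ (splice S η η') ∂(law F) = ∫ η', |f η + g η'| ∂(law F) := by
      congr 1
      funext η'
      exact e1 η'
    rw [e2]
    have h3 : |∫ η', (f η + g η') ∂(law F)| ≤ ∫ η', |f η + g η'| ∂(law F) := abs_integral_le_integral_abs
    have h4 : ∫ η', (f η + g η') ∂(law F) = f η + ∫ η', g η' ∂(law F) := by
      rw [integral_add (integrable_const _) hg.int, integral_const, probReal_univ, one_smul]
    rw [h4] at h3
    have h5 := abs_add_le (f η + ∫ η', g η' ∂(law F)) (-(∫ η', g η' ∂(law F)))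
    rw [add_neg_cancel_right, abs_neg] at h5
    linarith
  have h3 : ∫ η, |f η| ∂(law F) ≤ ∫ η, ((∫ η', φ (splice S η η') ∂(law F)) + |∫ η, g η ∂(law F)|) ∂(law F) :=
    integral_mono (μ := law F) (bm_abs hf).int (h2.add (integrable_const (|∫ η, g η ∂(law F)|))) key
  rw [integral_add h2 (integrable_const _), integral_const, probReal_univ, one_smul] at h3
  have h4 : ∫ η, φ η ∂(law F) = ∫ η, ∫ η', φ (splice S η η') ∂(law F) ∂(law F) := h1
  have h5 : ∫ η, φ η ∂(law F) = ∫ η, |f η + g η| ∂(law F) := by rw [hφ]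
  rw [← h4, h5] at h3
  exact h3

/-- The mean costs are nonnegative. -/
theorem e_nn (ht : Touch F d) {m : ℕ} (hm : 1 ≤ m) (y : ℤ) : 0 ≤ e F d m y := by
  refine le_trans ?_ (e_lower F d hm _)
  exact mul_nonneg (Nat.cast_nonneg _) (ht.nn _)

/-- **Two alternatives** between the same two points: the costs of the two middle pieces are almost equal. -/
theorem two_alt (hd : Adm F κ d) (ht : Touch F d) {q m : ℕ} (hq : 1 ≤ q) (hm : 1 ≤ m) {lo hi y : ℤ} {a : ℝ}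
    (h1 : e F d q lo ≤ a) (h2 : e F d q hi ≤ a) (h3 : e F d m y ≤ a) :
    ∫ η, |X F d η ((q : ℤ), lo) m y - X F d η ((q : ℤ), hi) m y| ∂(law F) ≤ 6 * a := by
  have b1 := bm_X hd (0 : Pt) hq lo
  have b2 := bm_X hd (0 : Pt) hq hi
  have b3 := bm_X hd ((q : ℤ), lo) hm y
  have b4 := bm_X hd ((q : ℤ), hi) hm y
  have b5 := bm_X hd (((q + m : ℕ) : ℤ), lo + y) hq hi
  have b6 := bm_X hd (((q + m : ℕ) : ℤ), hi + y) hq lo
  have b7 := bm_X hd (0 : Pt) (show 1 ≤ q + m + q by omega) (lo + y + hi)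
  -- the costs of the alternatives
  have c1 : ∀ η, X F d η 0 (q + m + q) (lo + y + hi) ≤
      X F d η 0 q lo + X F d η ((q : ℤ), lo) m y + X F d η (((q + m : ℕ) : ℤ), lo + y) q hi := by
    intro η
    have k1 := X_tri F d η 0 (show 1 ≤ q + m by omega) hq (lo + y) hi
    have k2 := X_tri F d η 0 hq hm lo y
    rw [zero_add] at k1 k2
    linarith
  have c2 : ∀ η, X F d η 0 (q + m + q) (lo + y + hi) ≤
      X F d η 0 q hi + X F d η ((q : ℤ), hi) m y + X F d η (((q + m : ℕ) : ℤ), hi + y) q lo := by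
    intro η
    have k1 := X_tri F d η 0 (show 1 ≤ q + m by omega) hq (hi + y) lo
    have k2 := X_tri F d η 0 hq hm hi y
    rw [zero_add] at k1 k2
    have e1 : hi + y + lo = lo + y + hi := by ring
    rw [e1] at k1
    linarith
  -- independence
  have hf : BM fun η => X F d η ((q : ℤ), lo) m y - X F d η ((q : ℤ), hi) m y := b3.sub b4
  have hg : BM fun η => (X F d η 0 q lo - X F d η 0 q hi) +
      (X F d η (((q + m : ℕ) : ℤ), lo + y) q hi - X F d η (((q + m : ℕ) : ℤ), hi + y) q lo) := (b1.sub b2).add (b5.sub b6)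
  have hfS : DependsOn (fun η => X F d η ((q : ℤ), lo) m y - X F d η ((q : ℤ), hi) m y) (F.co.slab (q : ℤ) ((q : ℤ) + m)) := by
    intro η η' h
    have k1 := X_dep F d ((q : ℤ), lo) m y h
    have k2 := X_dep F d ((q : ℤ), hi) m y h
    simp only at k1 k2 ⊢
    rw [k1, k2]
  have hgS : DependsOn (fun η => (X F d η 0 q lo - X F d η 0 q hi) +
      (X F d η (((q + m : ℕ) : ℤ), lo + y) q hi - X F d η (((q + m : ℕ) : ℤ), hi + y) q lo))
      (F.co.slab (q : ℤ) ((q : ℤ) + m))ᶜ := by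
    intro η η' h
    have g1 : ∀ e ∈ F.co.slab (0 : Pt).1 ((0 : Pt).1 + (q : ℤ)), η e = η' e := fun e he => h e fun he' => by
      have : Disjoint (F.co.slab (0 : Pt).1 ((0 : Pt).1 + (q : ℤ))) (F.co.slab (q : ℤ) ((q : ℤ) + m)) :=
        Co.slab_disjoint (by simp)
      exact Set.disjoint_left.1 this he he'
    have g2 : ∀ e ∈ F.co.slab (((q + m : ℕ) : ℤ)) (((q + m : ℕ) : ℤ) + (q : ℤ)), η e = η' e := fun e he => h e fun he' => by
      have : Disjoint (F.co.slab (q : ℤ) ((q : ℤ) + m)) (F.co.slab (((q + m : ℕ) : ℤ)) (((q + m : ℕ) : ℤ) + (q : ℤ))) :=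
        Co.slab_disjoint (by push_cast; exact le_rfl)
      exact Set.disjoint_left.1 this he' he
    have k1 := X_dep F d (0 : Pt) q lo g1
    have k2 := X_dep F d (0 : Pt) q hi g1
    have k3 := X_dep F d (((q + m : ℕ) : ℤ), lo + y) q hi g2
    have k4 := X_dep F d (((q + m : ℕ) : ℤ), hi + y) q lo g2
    simp only at k1 k2 k3 k4 ⊢
    rw [k1, k2, k3, k4]
  have key := abs_le_add (F := F) hf hg hfS hgS
  -- means
  have m1 := e_at F d (0 : Pt) q lo
  have m2 := e_at F d (0 : Pt) q hi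
  have m3 := e_at F d ((q : ℤ), lo) m y
  have m4 := e_at F d ((q : ℤ), hi) m y
  have m5 := e_at F d (((q + m : ℕ) : ℤ), lo + y) q hi
  have m6 := e_at F d (((q + m : ℕ) : ℤ), hi + y) q lo
  have m7 := e_at F d (0 : Pt) (q + m + q) (lo + y + hi)
  have n7 := e_nn (F := F) (d := d) ht (show 1 ≤ q + m + q by omega) (lo + y + hi)
  have hz : ∫ η, ((X F d η 0 q lo - X F d η 0 q hi) +
      (X F d η (((q + m : ℕ) : ℤ), lo + y) q hi - X F d η (((q + m : ℕ) : ℤ), hi + y) q lo)) ∂(law F) = 0 := by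
    rw [integral_add (b1.sub b2).int (b5.sub b6).int, integral_sub b1.int b2.int, integral_sub b5.int b6.int, m1, m2, m5, m6]
    ring
  rw [hz, abs_zero, add_zero] at key
  refine key.trans ?_
  have hpt : ∀ η, |(X F d η ((q : ℤ), lo) m y - X F d η ((q : ℤ), hi) m y) + ((X F d η 0 q lo - X F d η 0 q hi) +
      (X F d η (((q + m : ℕ) : ℤ), lo + y) q hi - X F d η (((q + m : ℕ) : ℤ), hi + y) q lo))| ≤
      ((X F d η 0 q lo + X F d η ((q : ℤ), lo) m y + X F d η (((q + m : ℕ) : ℤ), lo + y) q hi) +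
      (X F d η 0 q hi + X F d η ((q : ℤ), hi) m y + X F d η (((q + m : ℕ) : ℤ), hi + y) q lo)) -
      2 * X F d η 0 (q + m + q) (lo + y + hi) := by
    intro η
    have k1 := c1 η
    have k2 := c2 η
    rw [abs_le]
    constructor <;> linarith
  have p1 := (b1.add b3).add b5
  have p2 := (b2.add b4).add b6
  have hmono := integral_mono (μ := law F) (bm_abs (hf.add hg)).int ((p1.add p2).sub (b7.const_mul 2)).int hpt
  rw [integral_sub (p1.add p2).int (b7.const_mul 2).int, integral_add p1.int p2.int, integral_add (b1.add b3).int b5.int,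
    integral_add b1.int b3.int, integral_add (b2.add b4).int b6.int, integral_add b2.int b4.int, integral_const_mul,
    m1, m2, m3, m4, m5, m6, m7] at hmono
  linarith

/-! ### Concentration -/

/-- A large cost has a small probability. -/
theorem prob_big (hd : Adm F κ d) {m : ℕ} (hm : 1 ≤ m) (y : ℤ) {Z : ℝ} (hZ : 0 < Z) :
    (law F).real {η | Z < X F d η 0 m y} ≤ ep F d m y / Z := by
  have h1 := mul_meas_ge_le_integral_of_nonneg (μ := law F) (f := fun η => max (X F d η 0 m y) 0)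
    (Filter.Eventually.of_forall fun η => le_max_right _ _) (bm_max (bm_X hd 0 hm y) (BM.const 0)).int Z
  have h2 : (law F).real {η | Z < X F d η 0 m y} ≤ (law F).real {η | Z ≤ max (X F d η 0 m y) 0} :=
    measureReal_mono (fun η (hη : Z < X F d η 0 m y) => show Z ≤ max (X F d η 0 m y) 0 from
      (le_of_lt hη).trans (le_max_left _ _)) (measure_ne_top _ _)
  rw [le_div_iff₀ hZ]
  unfold ep
  nlinarith

theorem prob_abs {f : Env → ℝ} (hf : BM f) {b : ℝ} (hb : 0 < b) :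
    (law F).real {η | b < |f η|} ≤ (∫ η, |f η| ∂(law F)) / b := by
  have h1 := mul_meas_ge_le_integral_of_nonneg (μ := law F) (f := fun η => |f η|)
    (Filter.Eventually.of_forall fun η => abs_nonneg _) (bm_abs hf).int b
  have h2 : (law F).real {η | b < |f η|} ≤ (law F).real {η | b ≤ |f η|} :=
    measureReal_mono (fun η (hη : b < |f η|) => show b ≤ |f η| from le_of_lt hη) (measure_ne_top _ _)
  rw [le_div_iff₀ hb]
  nlinarith

/-- The mean positive part is at most the mean plus the mean positive part of the luck. -/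
theorem ep_le_add (hd : Adm F κ d) (ht : Touch F d) {m : ℕ} (hm : 1 ≤ m) (y : ℤ) :
    ep F d m y ≤ e F d m y + es F d m := by
  rw [ep_eq hd hm]
  have h1 := posVV_le hd ht hm
  have h2 : ∫ η, max (-X F d η 0 m y) 0 ∂(law F) ≤ ∫ η, max (VV F d η 0 m) 0 ∂(law F) :=
    integral_mono (bm_max (bm_X hd 0 hm y).neg (BM.const 0)).int (bm_max (bm_VV hd 0 hm) (BM.const 0)).int fun η =>
      max_le_max_right _ (neg_X_le_VV hd η 0 hm y)
  linarith

/-- **The cost is concentrated.** -/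
theorem conc_of (hd : Adm F κ d) (ht : Touch F d) (hk : Lat F κ k1 K1 d) {s W θ C : ℝ} (hs : 0 < s) (hsk : s ≤ k1 / 2)
    (hW : 0 < W) (hθ : 0 < θ) (hθ1 : 1 ≤ θ * (k1 / 2 * W)) {m q : ℕ} (hm : 1 ≤ m) (hq : 1 ≤ q)
    (hL : ∀ o : ℝ, ∫ η, Real.exp (θ * TL F d s o W m η) ∂(law F) ≤ C) {lo hi y : ℤ} {a b Z y0 : ℝ} (hb : 0 < b)
    (hZ : 0 < Z) (h1 : e F d q lo ≤ a) (h2 : e F d q hi ≤ a) (h3 : e F d m y ≤ a)
    (hsep : 2 * (Z + 2 * y0 + 2 * CP F) < s * ((hi : ℝ) - lo)) :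
    ∃ c1 : ℝ, (law F).real {η | b < |X F d η 0 m y - c1|} ≤
      6 * a / b + 3 * (10 * C * Real.exp (-(θ * y0)) + (a + es F d m) / Z) := by
  have hlat : lat d ((q : ℤ), hi) - lat d ((q : ℤ), lo) = (hi : ℝ) - lo := by
    unfold lat
    simp
  have hsep' : 2 * (Z + 2 * y0 + 2 * CP F) < s * |lat d ((q : ℤ), hi) - lat d ((q : ℤ), lo)| := by
    rw [hlat]
    exact hsep.trans_le (mul_le_mul_of_nonneg_left (le_abs_self _) hs.le)
  obtain ⟨c1, hc1⟩ := sep80 hd hk hs hsk hW hθ hθ1 hm hL y (y0 := y0) (Z := Z) (a1 := ((q : ℤ), lo)) (a2 := ((q : ℤ), hi))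
    hsep' b
  refine ⟨c1, hc1.trans ?_⟩
  have k1 := two_alt hd ht hq hm h1 h2 h3
  have k2 := prob_abs (F := F) ((bm_X hd ((q : ℤ), lo) hm y).sub (bm_X hd ((q : ℤ), hi) hm y)) hb
  have k3 := prob_big hd hm y hZ
  have k4 := ep_le_add hd ht hm y
  have k5 : (∫ η, |X F d η ((q : ℤ), lo) m y - X F d η ((q : ℤ), hi) m y| ∂(law F)) / b ≤ 6 * a / b :=
    div_le_div_of_nonneg_right k1 hb.le
  have k6 : ep F d m y / Z ≤ (a + es F d m) / Z := div_le_div_of_nonneg_right (by linarith) hZ.le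
  linarith

/-! ### One scale -/

/-- Growth in real powers of two. -/
theorem rpow_78 (T : ℕ) (k l : ℕ) (h : 7 * k = 8 * l) : (2 : ℝ) ^ (7 / 8 * ((8 * T + k : ℕ) : ℝ)) = 2 ^ (7 * T + l) := by
  rw [← Real.rpow_natCast]
  congr 1
  push_cast
  have h1 : (7 : ℝ) * k = 8 * l := by exact_mod_cast h
  linarith

/-- **The core**: at one scale the intervals of cheap displacements, the exponential moments of the tilted lucks and slow growth
imply that the unit does not grow at all. -/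
theorem scale_core (hd : Adm F κ d) (ht : Touch F d) (hk : Lat F κ k1 K1 d) {x T S : ℕ} (hTS : T ≤ S)
    {c8 C Cw E v w Y0 Z0 α ε : ℝ} (hE : E = EE F d (2 ^ x)) (hc8 : 0 < c8) (hC : 1 ≤ C) (hCw : 0 < Cw) (hv : 0 < v)
    (hw : 0 < w) (hwv : w ≤ Cw * ((2 : ℝ) ^ x * v)) (hα : 0 ≤ α) (hZ0 : 0 < Z0)
    (hint : ∀ q : ℕ, 2 ^ x ≤ q → q ≤ 2 ^ (x + S) → ∃ lo hi : ℤ, c8 * (v * q) ≤ (hi : ℝ) - lo ∧
      ∀ y : ℤ, lo ≤ y → y ≤ hi → e F d q y ≤ α * E)
    (hL : ∀ m : ℕ, m ≤ 2 ^ T * 2 ^ x → ∀ o : ℝ, ∫ η, Real.exp (1 / (C * E) * TL F d (E / (C * w)) o w m η) ∂(law F) ≤ C)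
    (hs1 : E / (C * w) ≤ k1 / 2) (hs2 : 1 ≤ 1 / (C * E) * (k1 / 2 * w)) (hCP : CP F ≤ E) (hCr : Cr F ≤ E / 8)
    (hg : ∀ j : ℕ, j ≤ 8 * T + 80 → gg F d (x + j) ≤ gg F d x + 7 / 8 * j)
    (hε : ε = (1 / 2) ^ (7 * T + 79)) (h1 : 48 * α ≤ ε / 4) (h2 : 30 * C * Real.exp (-(Y0 / C)) ≤ ε / 4)
    (h3 : 3 * ((α + 2 ^ T) / Z0) ≤ ε / 4) (h4 : 2 * (Z0 + 2 * Y0 + 2) < c8 * 2 ^ S / (C * Cw)) :
    EE F d (2 ^ (x + T)) ≤ E := by
  have hE0 : 0 < E := by rw [hE]; exact EE_pos F d _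
  have hC0 : 0 < C := by linarith
  have hε0 : 0 < ε := by rw [hε]; positivity
  have hε1 : ε ≤ 1 := by
    rw [hε]
    exact pow_le_one₀ (by norm_num) (by norm_num)
  have hslow : ∀ j : ℕ, j ≤ 8 * T + 80 → EE F d (2 ^ (x + j)) ≤ (2 : ℝ) ^ (7 / 8 * (j : ℝ)) * E := by
    intro j hj
    have := EE_slow (hg j hj)
    rwa [← hE] at this
  refine EE_le F d fun m hm => ?_
  rcases le_total m (2 ^ x) with h | h
  · rw [hE]
    exact le_EE F d h
  have hm1 : 1 ≤ m := Nat.one_le_two_pow.trans h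
  have hpow : 2 ^ (x + T) ≤ 2 ^ (x + S) := Nat.pow_le_pow_right (by norm_num) (by omega)
  obtain ⟨y, hi', hy1, hy2⟩ := hint m h (hm.trans hpow)
  have hyi : y ≤ hi' := by
    have k1 : 0 ≤ c8 * (v * m) := by positivity
    have k2 : (y : ℝ) ≤ hi' := by linarith
    exact_mod_cast k2
  have hem := hy2 y le_rfl hyi
  obtain ⟨lo, hi, hlh, hq⟩ := hint (2 ^ (x + S)) (Nat.pow_le_pow_right (by norm_num) (by omega)) le_rfl
  have hlhi : lo ≤ hi := by
    have k1 : 0 ≤ c8 * (v * (2 ^ (x + S) : ℕ)) := by positivity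
    have k2 : (lo : ℝ) ≤ hi := by linarith
    exact_mod_cast k2
  have hs0 : 0 < E / (C * w) := by positivity
  have hsep : 2 * (Z0 * E + 2 * (Y0 * E) + 2 * CP F) < E / (C * w) * ((hi : ℝ) - lo) := by
    have k1 : E / (C * w) * (c8 * (v * (2 ^ (x + S) : ℕ))) ≤ E / (C * w) * ((hi : ℝ) - lo) :=
      mul_le_mul_of_nonneg_left hlh hs0.le
    have k2 : E * (c8 * 2 ^ S / (C * Cw)) ≤ E / (C * w) * (c8 * (v * (2 ^ (x + S) : ℕ))) := by
      have e1 : E * (c8 * 2 ^ S / (C * Cw)) = E * c8 * 2 ^ S / (C * Cw) := by ring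
      have e2 : E / (C * w) * (c8 * (v * (2 ^ (x + S) : ℕ))) = E * c8 * 2 ^ S * (2 ^ x * v) / (C * w) := by
        push_cast
        rw [pow_add]
        field_simp
      rw [e1, e2, div_le_div_iff₀ (by positivity) (by positivity)]
      have k3 := mul_le_mul_of_nonneg_left hwv (show 0 ≤ E * c8 * 2 ^ S * C by positivity)
      calc E * c8 * 2 ^ S * (C * w) = E * c8 * 2 ^ S * C * w := by ring
        _ ≤ E * c8 * 2 ^ S * C * (Cw * (2 ^ x * v)) := k3
        _ = E * c8 * 2 ^ S * (2 ^ x * v) * (C * Cw) := by ring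
    have k4 := mul_lt_mul_of_pos_left h4 hE0
    have k5 : 2 * (Z0 * E + 2 * (Y0 * E) + 2 * CP F) ≤ E * (2 * (Z0 + 2 * Y0 + 2)) := by
      have : 2 * (Z0 * E + 2 * (Y0 * E) + 2 * E) = E * (2 * (Z0 + 2 * Y0 + 2)) := by ring
      linarith
    linarith
  have hmT : m ≤ 2 ^ T * 2 ^ x := by
    rw [← pow_add, add_comm T x]
    exact hm
  have hb : 0 < E / 8 := by positivity
  obtain ⟨c1, hc1⟩ := conc_of hd ht hk hs0 hs1 hw (show 0 < 1 / (C * E) by positivity) hs2 hm1 (q := 2 ^ (x + S))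
    Nat.one_le_two_pow (hL m hmT) (lo := lo) (hi := hi) (y := y) (a := α * E) (b := E / 8) (Z := Z0 * E) (y0 := Y0 * E) hb
    (by positivity) (hq lo le_rfl hlhi) (hq hi hlhi le_rfl) hem hsep
  have hesm : es F d m ≤ 2 ^ T * E := by
    have k1 := le_EE F d hmT
    have k2 := EE_mul F d (2 ^ x) (show 1 ≤ 2 ^ T from Nat.one_le_two_pow)
    rw [← hE] at k2
    push_cast at k2
    have k3 := Cr_pos F
    linarith
  have hconc : (law F).real {η | E / 8 < |X F d η 0 m y - c1|} ≤ ε := by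
    refine hc1.trans ?_
    have k1 : 6 * (α * E) / (E / 8) = 48 * α := by
      field_simp
      ring
    have k2 : 1 / (C * E) * (Y0 * E) = Y0 / C := by
      field_simp
    have k3 : (α * E + es F d m) / (Z0 * E) ≤ (α + 2 ^ T) / Z0 := by
      rw [div_le_div_iff₀ (by positivity) hZ0]
      have k4 : α * E + es F d m ≤ (α + 2 ^ T) * E := by linarith
      have k5 := mul_le_mul_of_nonneg_right k4 hZ0.le
      linarith
    rw [k1, k2]
    linarith
  -- the mean positive part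
  have hN1 : 1 ≤ 2 ^ (7 * T + 32) := Nat.one_le_two_pow
  have hNε : ((2 ^ (7 * T + 32) : ℕ) : ℝ) * ε ≤ 1 / 2 := by
    rw [hε]
    push_cast
    rw [show 7 * T + 79 = 7 * T + 32 + 47 by ring, pow_add (1 / 2 : ℝ) (7 * T + 32) 47, ← mul_assoc, ← mul_pow]
    norm_num
  have hesA : es F d (2 ^ (7 * T + 32) * m) ≤ 2 ^ (7 * T + 28) * E := by
    have k1 : 2 ^ (7 * T + 32) * m ≤ 2 ^ (x + (8 * T + 32)) := by
      calc 2 ^ (7 * T + 32) * m ≤ 2 ^ (7 * T + 32) * 2 ^ (x + T) := Nat.mul_le_mul_left _ hm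
        _ = 2 ^ (x + (8 * T + 32)) := by rw [← pow_add]; congr 1; ring
    have k2 := le_EE F d k1
    have k3 := hslow (8 * T + 32) (by omega)
    rw [rpow_78 T 32 28 (by norm_num)] at k3
    have k4 := Cr_pos F
    linarith
  have hM : 2 / ε * m ≤ ((2 ^ (x + (8 * T + 80)) : ℕ) : ℝ) := by
    have k1 : (m : ℝ) ≤ 2 ^ (x + T) := by exact_mod_cast hm
    have k2 : 2 / ε = 2 ^ (7 * T + 80) := by
      rw [hε, one_div, inv_pow, div_inv_eq_mul]
      rw [show 7 * T + 80 = 7 * T + 79 + 1 by ring, pow_succ]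
      ring
    rw [k2]
    push_cast
    calc (2 : ℝ) ^ (7 * T + 80) * m ≤ 2 ^ (7 * T + 80) * 2 ^ (x + T) := mul_le_mul_of_nonneg_left k1 (by positivity)
      _ = 2 ^ (x + (8 * T + 80)) := by rw [← pow_add]; congr 1; ring
  have hep := ep_conc hd ht hm1 (k := y) hb.le hconc hN1 hNε hesA hε0 hε1 hM
  have hA1 : 2 * ((2 : ℝ) ^ (7 * T + 28) * E) / ((2 ^ (7 * T + 32) : ℕ) : ℝ) = E / 8 := by
    have e1 : ((2 ^ (7 * T + 32) : ℕ) : ℝ) = 2 ^ (7 * T + 28) * 16 := by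
      push_cast
      rw [show 7 * T + 32 = 7 * T + 28 + 4 by ring, pow_add (2 : ℝ) (7 * T + 28) 4]
      norm_num
    rw [e1]
    obtain ⟨P, hP, hP0⟩ : ∃ P : ℝ, P = 2 ^ (7 * T + 28) ∧ 0 < P := ⟨_, rfl, by positivity⟩
    rw [← hP]
    field_simp
    norm_num
  have hA2 : 7 * EE F d (2 ^ (x + (8 * T + 80))) * (ε + ε) ≤ 14 / 512 * E := by
    have k3 := hslow (8 * T + 80) le_rfl
    rw [rpow_78 T 80 70 (by norm_num)] at k3
    have k4 : (2 : ℝ) ^ (7 * T + 70) * ε = 1 / 512 := by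
      rw [hε, show 7 * T + 79 = 7 * T + 70 + 9 by ring, pow_add (1 / 2 : ℝ) (7 * T + 70) 9, ← mul_assoc, ← mul_pow]
      norm_num
    have k5 := mul_le_mul_of_nonneg_right k3 (show 0 ≤ 14 * ε by positivity)
    calc 7 * EE F d (2 ^ (x + (8 * T + 80))) * (ε + ε) = EE F d (2 ^ (x + (8 * T + 80))) * (14 * ε) := by ring
      _ ≤ 2 ^ (7 * T + 70) * E * (14 * ε) := k5
      _ = 14 * (2 ^ (7 * T + 70) * ε) * E := by ring
      _ = 14 / 512 * E := by rw [k4]; ring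
  rw [hA1] at hep
  have hes := es_le F d m y
  have hαE : α * E ≤ E / 8 := by
    have : α ≤ 1 / 8 := by linarith
    have := mul_le_mul_of_nonneg_right this hE0.le
    linarith
  linarith

/-! ### Uniformly in the direction -/

theorem vA_cmp {a : ℝ} (hD : Dirs F κ K Ds) (hd : d ∈ Ds) (hA : 0 < A) (ha : 0 < a) (n : ℕ) :
    vA a F d n ≤ max 1 (a / A) * vA A F d n := by
  have h1 : (1 : ℝ) ≤ max 1 (a / A) := le_max_left _ _
  have h2 : a ≤ max 1 (a / A) * A := by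
    have h3 := mul_le_mul_of_nonneg_right (le_max_right 1 (a / A)) hA.le
    rwa [div_mul_cancel₀ _ hA.ne'] at h3
  exact (hD.vA_level_mono hd ha.le h2 n).trans (hD.vA_level_mul hd hA.le h1 n)

/-- **(hF2)**, uniformly, with `j0` octaves before the window. -/
theorem hF2s {Js : Set ℕ} {θ a : ℝ} (hD : Dirs F κ K Ds) (hA : 1 ≤ A) (hR : Rate F Ds) (hG : Grow F Ds)
    (hk : ∀ d ∈ Ds, Lat F κ k1 K1 d) (ha : 0 < a) (hLS : LStarP a F Ds) (hθ : θ ≤ 7 / 8) (hT : RTFs Js θ A F Ds)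
    {T x0 : ℕ} (hdbl : ∀ d ∈ Ds, ∀ y : ℕ, x0 ≤ y → gg F d y + 1 ≤ gg F d (y + T)) :
    ∃ j0 ∈ Js, ∃ (L x1 : ℕ) (δ : ℝ), 0 < δ ∧ ∀ d ∈ Ds, ∀ x : ℕ, x1 ≤ x → j0 ≤ x →
      (∀ j : ℕ, j ≤ L → gg F d (x + j) ≤ gg F d x + θ * j) → ff A F d (x - j0) + δ ≤ ff A F d (x + L) := by
  have hA0 : 0 < A := one_pos.trans_le hA
  obtain ⟨c8, C8, hc8, hC8, hM⟩ := hfEs hD hA hR hG (by linarith) hT
  obtain ⟨C, n0, hC, hLS⟩ := hLS (2 ^ T)
  have hC0 : 0 < C := by linarith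
  obtain ⟨Cw, hCw⟩ : ∃ Cw, Cw = max 1 (a / A) := ⟨_, rfl⟩
  have hCw0 : 0 < Cw := by
    rw [hCw]
    exact lt_max_of_lt_left one_pos
  obtain ⟨ε, hε⟩ : ∃ ε : ℝ, ε = (1 / 2) ^ (7 * T + 79) := ⟨_, rfl⟩
  have hε0 : 0 < ε := by rw [hε]; positivity
  obtain ⟨α, hα⟩ : ∃ α : ℝ, α = ε / 192 := ⟨_, rfl⟩
  have hα0 : 0 < α := by rw [hα]; positivity
  obtain ⟨Y0, hY0⟩ : ∃ Y0 : ℝ, Y0 = C * Real.log (120 * C / ε) := ⟨_, rfl⟩
  obtain ⟨Z0, hZ0⟩ : ∃ Z0 : ℝ, Z0 = 12 * (α + 2 ^ T) / ε := ⟨_, rfl⟩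
  have hZ00 : 0 < Z0 := by rw [hZ0]; positivity
  obtain ⟨S1, hS1⟩ := pow_unbounded_of_one_lt (2 * (Z0 + 2 * Y0 + 2) * (C * Cw) / c8) (one_lt_two (α := ℝ))
  obtain ⟨S, hS⟩ : ∃ S, S = max T S1 := ⟨_, rfl⟩
  obtain ⟨j0, hj0, L, x1, δ, hδ, hmain⟩ := hM T x0 hdbl S α hα0
  obtain ⟨nw, -, hnw⟩ := hD.w_large hR ha (2 * C / k1)
  obtain ⟨nG, hnG⟩ := hG (max (CP F) (8 * Cr F))
  refine ⟨j0, hj0, max L (8 * T + 80), max x1 (max n0 (max nw (max nG x0))), δ, hδ, fun d hd x hx hxj hslow => ?_⟩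
  by_contra hcon
  push Not at hcon
  have hx1 : x1 ≤ x := (le_max_left _ _).trans hx
  have hx' := (le_max_right _ _).trans hx
  have hxn0 : n0 ≤ 2 ^ x := ((le_max_left _ _).trans hx').trans Nat.lt_two_pow_self.le
  have hx'' := (le_max_right _ _).trans hx'
  have hxnw : nw ≤ 2 ^ x := ((le_max_left _ _).trans hx'').trans Nat.lt_two_pow_self.le
  have hx3 := (le_max_right _ _).trans hx''
  have hxnG : nG ≤ 2 ^ x := ((le_max_left _ _).trans hx3).trans Nat.lt_two_pow_self.le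
  have hxx0 : x0 ≤ x := (le_max_right _ _).trans hx3
  have hint := hmain d hd x hx1 hxj (fun j hj => hslow j (hj.trans (le_max_left _ _)))
    (lt_of_le_of_lt (ff_mono hD hA0 hd (Nat.add_le_add_left (le_max_left _ _) x)) hcon)
  have hadm := hD.adm d hd
  have htouch := hD.touch d hd
  have hkd := hk d hd
  have hk0 := hkd.k0
  have hE := EE_pos F d (2 ^ x)
  have hEbig := hnG d hd (2 ^ x) hxnG
  have hv : 0 < vA A F d (2 ^ x) := hD.vA_pos hd hA0 Nat.one_le_two_pow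
  have hva : 0 < vA a F d (2 ^ x) := hD.vA_pos hd ha Nat.one_le_two_pow
  have hw : 0 < ((2 ^ x : ℕ) : ℝ) * vA a F d (2 ^ x) := by positivity
  have hwl := hnw d hd (2 ^ x) hxnw
  have hcore := scale_core (S := S) hadm htouch hkd (x := x) (T := T) (by rw [hS]; exact le_max_left _ _) (c8 := c8) (C := C)
    (Cw := Cw) (E := EE F d (2 ^ x)) (v := vA A F d (2 ^ x)) (w := ((2 ^ x : ℕ) : ℝ) * vA a F d (2 ^ x)) (Y0 := Y0) (Z0 := Z0)
    (α := α) (ε := ε) rfl hc8 hC hCw0 hv hw ?_ hα0.le hZ00 (fun q h1 h2 => ?_) (fun m hm o => hLS d hd (2 ^ x) hxn0 m hm o)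
    ?_ ?_ ((le_max_left _ _).trans hEbig) ?_ (fun j hj => ?_) hε ?_ ?_ ?_ ?_
  · have h1 := hdbl d hd x hxx0
    have h2 : 2 * EE F d (2 ^ x) ≤ EE F d (2 ^ (x + T)) := by
      rw [← pow_gg, ← pow_gg]
      calc (2 : ℝ) * 2 ^ gg F d x = 2 ^ (gg F d x + 1) := by rw [Real.rpow_add two_pos, Real.rpow_one, mul_comm]
        _ ≤ 2 ^ gg F d (x + T) := Real.rpow_le_rpow_of_exponent_le one_le_two h1
    linarith
  · have h1 := vA_cmp hD hd hA0 ha (2 ^ x)
    rw [← hCw] at h1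
    have h2 := mul_le_mul_of_nonneg_left h1 (show (0 : ℝ) ≤ 2 ^ x by positivity)
    push_cast
    calc (2 : ℝ) ^ x * vA a F d (2 ^ x) ≤ 2 ^ x * (Cw * vA A F d (2 ^ x)) := h2
      _ = Cw * (2 ^ x * vA A F d (2 ^ x)) := by ring
  · obtain ⟨lo, hi, h3, h4⟩ := hint q h1 h2
    exact ⟨lo, hi, h3, fun y h5 h6 => (h4 y h5 h6).1⟩
  · rw [div_le_iff₀ (by positivity)]
    have h1 : 2 * C / k1 * EE F d (2 ^ x) * (k1 / 2) ≤ ((2 ^ x : ℕ) : ℝ) * vA a F d (2 ^ x) * (k1 / 2) :=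
      mul_le_mul_of_nonneg_right hwl (by positivity)
    have h2 : 2 * C / k1 * EE F d (2 ^ x) * (k1 / 2) = C * EE F d (2 ^ x) := by
      field_simp
    have h3 : EE F d (2 ^ x) ≤ C * EE F d (2 ^ x) := le_mul_of_one_le_left hE.le hC
    have h4 : ((2 ^ x : ℕ) : ℝ) * vA a F d (2 ^ x) * (k1 / 2) ≤ C * (((2 ^ x : ℕ) : ℝ) * vA a F d (2 ^ x) * (k1 / 2)) :=
      le_mul_of_one_le_left (by positivity) hC
    linarith
  · have h1 : 2 * C / k1 * EE F d (2 ^ x) * (k1 / 2) ≤ ((2 ^ x : ℕ) : ℝ) * vA a F d (2 ^ x) * (k1 / 2) :=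
      mul_le_mul_of_nonneg_right hwl (by positivity)
    have h2 : 2 * C / k1 * EE F d (2 ^ x) * (k1 / 2) = C * EE F d (2 ^ x) := by
      field_simp
    rw [one_div_mul_eq_div, one_le_div (by positivity)]
    linarith
  · have h1 := (le_max_right (CP F) (8 * Cr F)).trans hEbig
    linarith
  · have h1 := hslow j (hj.trans (le_max_right _ _))
    have h2 := mul_le_mul_of_nonneg_right hθ (Nat.cast_nonneg (α := ℝ) j)
    linarith
  · rw [hα]
    linarith
  · rw [hY0, mul_div_cancel_left₀ _ hC0.ne', ← Real.log_inv, Real.exp_log (by positivity)]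
    refine le_of_eq ?_
    field_simp
    norm_num
  · rw [hZ0]
    refine le_of_eq ?_
    field_simp
    norm_num
  · rw [lt_div_iff₀ (by positivity)]
    rw [div_lt_iff₀ hc8] at hS1
    have h1 : (2 : ℝ) ^ S1 ≤ 2 ^ S := pow_le_pow_right₀ one_le_two (by rw [hS]; exact le_max_right _ _)
    have h2 := mul_le_mul_of_nonneg_right h1 hc8.le
    linarith

/-- The lateral constants. -/
theorem exists_lat (hD : Dirs F κ K Ds) : ∃ k1 K1 : ℝ, ∀ d ∈ Ds, Lat F κ k1 K1 d := by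
  rcases Ds.eq_empty_or_nonempty with h0 | ⟨d0, hd0⟩
  · refine ⟨1, 1, fun d hd => ?_⟩
    rw [h0] at hd
    exact absurd hd (notMem_empty _)
  have hκ := (hD.adm d0 hd0).κ0
  have hK0 : 0 ≤ K := (abs_nonneg _).trans (hD.slope d0 hd0)
  have hR1 : (1 : ℝ) ≤ F.co.R := by exact_mod_cast F.co.R_pos
  have hK1p : 0 < F.co.R + K := by linarith
  exact ⟨κ / (F.co.R + K), F.co.R + K, fun d hd => ⟨by positivity, by linarith [hD.slope d hd], by
    rw [div_mul_cancel₀ _ hK1p.ne']⟩⟩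

/-- **(hF2)** from the record trick at two tubes in slow windows (exponent `3 / 4`). -/
theorem hF2P {a : ℝ} (hD : Dirs F κ K Ds) (hA : 1 ≤ A) (hR : Rate F Ds) (hG : Grow F Ds)
    (ha : 0 < a) (hLS : LStarP a F Ds) (hT : RTF (3 / 4) A F Ds) : HF2P A F κ Ds := by
  intro T x0 b hdbl _ _
  obtain ⟨k1, K1, hk⟩ := exists_lat hD
  obtain ⟨j0, hj0, L, x1, δ, hδ, h⟩ := hF2s hD hA hR hG hk ha hLS (by norm_num) hT.to hdbl
  obtain rfl : j0 = 0 := hj0
  exact ⟨L, x1, δ, hδ, fun d hd x hx hs => h d hd x hx (Nat.zero_le x) hs⟩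

/-- **(hF2)**, the version with octaves before the window (exponent `7 / 8`). -/
theorem hF2P' {a : ℝ} {Js : Set ℕ} (hD : Dirs F κ K Ds) (hA : 1 ≤ A) (hR : Rate F Ds) (hG : Grow F Ds)
    (ha : 0 < a) (hLS : LStarP a F Ds) (hT : RTFs Js (7 / 8) A F Ds) :
    HF2P A F κ Ds := by
  intro T x0 b hdbl _ _
  obtain ⟨k1, K1, hk⟩ := exists_lat hD
  have hA0 : 0 < A := one_pos.trans_le hA
  obtain ⟨j0, hj0, L, x1, δ, hδ, h⟩ := hF2s hD hA hR hG hk ha hLS le_rfl hT hdbl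
  obtain ⟨L0, -, h0⟩ := slow_start (ι := Ds) (g := fun d x => gg F d.1 x) (f := fun d x => ff A F d.1 x)
    (fun d => gg_mono F d.1) (fun d => ff_mono hD hA0 d.2) (θ := 3 / 4) (θ' := 7 / 8) (by norm_num) (by norm_num)
    (j0 := j0) (L := L) (x1 := x1) (δ := δ) (fun d x hx hxj hs => h d.1 d.2 x hx hxj hs)
  exact ⟨L0, x1, δ, hδ, fun d hd x hx hs => h0 ⟨d, hd⟩ x hx hs⟩

end

end Pool.Agent.W_1b8d5d_h6p
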