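import Pool.Agent.W_1b8d5d_h6p.FinPD
import Pool.Agent.W_1b8d5d_p.RtF99
import Pool.Agent.W_1b8d5d_p.FrameF
import Pool.Agent.W_1b8d5d_p28.TF
import Pool.Agent.W_1b8d5d_h14.RecC14

/-!
MP_1b8d5d_pr, Track P: **(hF2)** from the law and the set of directions only. (helper6)
-/

set_option autoImplicit false

namespace Pool.Agent.W_1b8d5d_h6p

open Pool.Agent.W_1b8d5d_p Pool.Agent.W_1b8d5d_h4p

variable {F : Fm} {κ K A c0 C0 : ℝ} {Ds : Set Dr}

/-- **(hF2)**: in a slow window the widths are not flat. -/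
theorem hF2_all (hL : LawH F c0 C0) (hD : Dirs F κ K Ds) (hA : 1 ≤ A) : HF2P A F κ Ds := by
  have hA0 : 0 < A := one_pos.trans_le hA
  have hR := hD.rate hL
  have hG := hD.grow_law hL
  obtain ⟨c, C', hc, hch⟩ := cheapP_all hL hD hA
  have hch' : CheapI A F Ds c C' := hch
  have hTF : TFH (3 / 4) A F Ds := Pool.Agent.W_1b8d5d_p28.tf_all hL hD hR hG hA0 hc hch' (by norm_num)
  have hRec : RecH F Ds := Pool.Agent.W_1b8d5d_h14.recH14 fun d hd => hD.adm d hd
  exact hF2P hD hA hR hG hA0 (lstarP_all hL hD hA0) (rtf99 hD hA0 hR hTF hRec)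

end Pool.Agent.W_1b8d5d_h6p
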